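import Pool.Agent.X281.BZ
import Pool.Agent.TH54.BU.BurnDef

/-!
# Free Burnside monoids for `x = x ^ (1 + m)`: classes which are not regular
-/

set_option autoImplicit false

namespace Pool.Agent.X281.BZ

open Pool.Agent.TH54.BU

/-- the free Burnside group of rank two -/
abbrev B2 (m : ℕ) : Type := FreeGroup (Fin 2) ⧸ powSub (FreeGroup (Fin 2)) m

theorem pow_B2 (m : ℕ) (x : B2 m) : x ^ m = 1 := by
  obtain ⟨g, rfl⟩ := QuotientGroup.mk_surjective x
  rw [← QuotientGroup.mk_pow, QuotientGroup.eq_one_iff]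
  exact Subgroup.subset_normalClosure ⟨g, rfl⟩

/-- the natural map -/
def psi (m : ℕ) : FreeMonoid (Fin 2) →* B2 m :=
  FreeMonoid.lift fun i => ((FreeGroup.of i : FreeGroup (Fin 2)) : B2 m)

theorem psi_of (m : ℕ) (i : Fin 2) :
    psi m (FreeMonoid.of i) = ((FreeGroup.of i : FreeGroup (Fin 2)) : B2 m) := by
  simp [psi]

theorem psi_surj {m : ℕ} (hm : 0 < m) (x : B2 m) : ∃ u, psi m u = x := by
  obtain ⟨g, rfl⟩ := QuotientGroup.mk_surjective x
  induction g using FreeGroup.induction_on with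
  | C1 => exact ⟨1, map_one _⟩
  | of i => exact ⟨FreeMonoid.of i, psi_of m i⟩
  | inv_of i _ =>
    refine ⟨FreeMonoid.of i ^ (m - 1), ?_⟩
    rw [map_pow, psi_of]
    have h := pow_B2 m ((FreeGroup.of i : FreeGroup (Fin 2)) : B2 m)
    obtain ⟨k, rfl⟩ : ∃ k, m = k + 1 := ⟨m - 1, by omega⟩
    rw [pow_succ] at h
    exact eq_inv_of_mul_eq_one_left h
  | mul a b ha hb =>
    obtain ⟨u, hu⟩ := ha
    obtain ⟨v, hv⟩ := hb
    exact ⟨u * v, by rw [map_mul, hu, hv]; rfl⟩

/-- the congruence -/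
def cg (m : ℕ) : Con (FreeMonoid (Fin 2)) :=
  conGen (fun a b : FreeMonoid (Fin 2) => ∃ x : FreeMonoid (Fin 2), a = x ^ 1 ∧ b = x ^ (1 + m))

theorem cg_psi {m : ℕ} {a b : FreeMonoid (Fin 2)} (h : cg m a b) : psi m a = psi m b := by
  have h1 : cg m ≤ Con.ker (psi m) := by
    refine Con.conGen_le.2 ?_
    rintro _ _ ⟨x, rfl, rfl⟩
    rw [Con.ker_rel, map_pow, pow_add, pow_B2, mul_one]
    simp
  exact h1 h

theorem cg_pow {m : ℕ} (x : (cg m).Quotient) : x ^ (1 + m) = x := by
  induction x using Con.induction_on with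
  | H a =>
    have e : ((a : (cg m).Quotient)) ^ (1 + m) = ((a ^ (1 + m) : FreeMonoid (Fin 2)) :
      (cg m).Quotient) := rfl
    rw [e]
    refine ((cg m).eq.2 ?_).symm
    have h := ConGen.Rel.of (r := fun a b : FreeMonoid (Fin 2) =>
      ∃ x : FreeMonoid (Fin 2), a = x ^ 1 ∧ b = x ^ (1 + m)) (a ^ 1) (a ^ (1 + m)) ⟨a, rfl, rfl⟩
    rw [pow_one] at h
    exact h

theorem mem_clo {m : ℕ} (u : FreeMonoid (Fin 2)) : (u : (cg m).Quotient) ∈
    Submonoid.closure ({((FreeMonoid.of 0 : FreeMonoid (Fin 2)) : (cg m).Quotient),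
      ((FreeMonoid.of 1 : FreeMonoid (Fin 2)) : (cg m).Quotient)} : Set (cg m).Quotient) := by
  induction u using FreeMonoid.recOn with
  | one => exact one_mem _
  | of_mul i xs h =>
    rw [Con.coe_mul]
    refine mul_mem (Submonoid.subset_closure ?_) h
    fin_cases i
    · exact Or.inl rfl
    · exact Or.inr rfl

/-- the word whose class is not regular -/
def ww (m : ℕ) : FreeMonoid (Fin 2) := (FreeMonoid.of 0 * FreeMonoid.of 1) ^ m

theorem psi_ww (m : ℕ) : psi m (ww m) = 1 := by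
  rw [ww, map_pow, pow_B2]

theorem cg_loc {m : ℕ} (hm : 0 < m) (u : FreeMonoid (Fin 2)) :
    cg m ((ww m * u * ww m) ^ (m - 1) * ww m * u * ww m) (ww m) := by
  have h := (loc hm (cg_pow (m := m)) _ _ _ (mem_clo u)).2
  refine (cg m).eq.1 ?_
  obtain ⟨k, rfl⟩ : ∃ k, m = k + 1 := ⟨m - 1, by omega⟩
  rw [show k + 1 - 1 = k from rfl]
  have e : (ww (k + 1) * u * ww (k + 1)) ^ k * ww (k + 1) * u * ww (k + 1) =
      (ww (k + 1) * u * ww (k + 1)) ^ (k + 1) := by
    rw [pow_succ]; simp only [mul_assoc]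
  rw [e]
  exact h

theorem not_regular {m : ℕ} (hm : 0 < m) [hinf : Infinite (B2 m)] {σ : Type} [Fintype σ]
    (M : DFA (Fin 2) σ)
    (hM : M.accepts = {v : List (Fin 2) | cg m (FreeMonoid.ofList v) (ww m)}) : False := by
  choose f hf using psi_surj (m := m) hm
  have key : ∀ u v : FreeMonoid (Fin 2),
      (fun s => M.evalFrom s (FreeMonoid.toList u)) = (fun s => M.evalFrom s (FreeMonoid.toList v)) →
      psi m u = psi m v := by
    intro u v huv
    have h1 : ∀ x y : FreeMonoid (Fin 2), cg m (x * u * y) (ww m) → cg m (x * v * y) (ww m) := by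
      intro x y h
      have e : ∀ t : FreeMonoid (Fin 2), cg m t (ww m) ↔ FreeMonoid.toList t ∈ M.accepts := by
        intro t
        rw [hM]
        rfl
      rw [e] at h ⊢
      rw [FreeMonoid.toList_mul, FreeMonoid.toList_mul, DFA.mem_accepts, DFA.eval,
        DFA.evalFrom_of_append, DFA.evalFrom_of_append] at h ⊢
      have h2 := congrFun huv (M.evalFrom M.start (FreeMonoid.toList x))
      change M.evalFrom (M.evalFrom M.start (FreeMonoid.toList x)) (FreeMonoid.toList u) =
        M.evalFrom (M.evalFrom M.start (FreeMonoid.toList x)) (FreeMonoid.toList v) at h2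
      rw [← h2]
      exact h
    have h2 := h1 ((ww m * u * ww m) ^ (m - 1) * ww m) (ww m) (cg_loc hm u)
    have h3 := cg_psi h2
    rw [map_mul, map_mul, map_mul, map_pow, map_mul, map_mul, psi_ww, one_mul, mul_one, mul_one,
      mul_one] at h3
    have h4 := pow_B2 m (psi m u)
    obtain ⟨k, rfl⟩ : ∃ k, m = k + 1 := ⟨m - 1, by omega⟩
    rw [pow_succ] at h4
    rw [show k + 1 - 1 = k from rfl] at h3
    exact mul_left_cancel (h4.trans h3.symm)
  have hinj : Function.Injective fun g : B2 m =>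
      (fun s : σ => M.evalFrom s (FreeMonoid.toList (f g))) := by
    intro g h hgh
    have := key (f g) (f h) hgh
    rwa [hf, hf] at this
  classical
  exact not_finite_iff_infinite.2 hinf (Finite.of_injective _ hinj)

end Pool.Agent.X281.BZ
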