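import Mathlib

/-!
# Monoids with `x ^ (1 + m) = x`: the local subgroups
-/

set_option autoImplicit false

namespace Pool.Agent.X281.BZ

variable {S : Type*} [Monoid S] {m : ℕ}

/-- `s` lies in the two-sided ideal generated by `x` -/
def J (s x : S) : Prop := ∃ p q : S, s = p * x * q

theorem sq (hm : 0 < m) (hS : ∀ x : S, x ^ (1 + m) = x) (s : S) : ∃ z, s = s * s * z := by
  refine ⟨s ^ (m - 1), ?_⟩
  have h : 1 + m = 1 + 1 + (m - 1) := by omega
  conv_lhs => rw [← hS s, h, pow_add, pow_add, pow_one]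

theorem J_mul (hm : 0 < m) (hS : ∀ x : S, x ^ (1 + m) = x) {s x y : S} (h1 : J s x) (h2 : J s y) :
    J s (x * y) := by
  obtain ⟨p, q, h1⟩ := h1
  obtain ⟨r, t, h2⟩ := h2
  obtain ⟨z, hz⟩ := sq hm hS s
  obtain ⟨z', hz'⟩ := sq hm hS (y * (t * p) * x)
  refine ⟨r * (y * (t * p)), t * p * x * z' * q * z, ?_⟩
  calc s = s * s * z := hz
    _ = (r * y * t) * (p * x * q) * z := by rw [← h1, ← h2]
    _ = r * (y * (t * p) * x) * q * z := by simp only [mul_assoc]
    _ = r * ((y * (t * p) * x) * (y * (t * p) * x) * z') * q * z := by rw [← hz']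
    _ = r * (y * (t * p)) * (x * y) * (t * p * x * z' * q * z) := by simp only [mul_assoc]

theorem idem_eq (hm : 0 < m) (hS : ∀ x : S, x ^ (1 + m) = x) {e g : S} (he : e * e = e)
    (hg : g * g = g) (h1 : e * g = g) (h2 : g * e = g) (hJ : J e g) : g = e := by
  obtain ⟨p, q, hpq⟩ := hJ
  set P : S := e * p * g with hP
  set Q : S := g * q * e with hQ
  have a1 : P * Q = e := by
    calc P * Q = e * (p * (g * g) * q) * e := by rw [hP, hQ]; simp only [mul_assoc]
      _ = e := by rw [hg, ← hpq, he, he]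
  have a2 : e * P = P := by rw [hP, ← mul_assoc, ← mul_assoc, he]
  have a3 : P * e = P := by rw [hP, mul_assoc, h2]
  have a4 : e * Q = Q := by rw [hQ, ← mul_assoc, ← mul_assoc, h1]
  have a5 : g * Q = Q := by rw [hQ, ← mul_assoc, ← mul_assoc, hg]
  have b1 : P ^ m * P = P := by rw [← pow_succ, add_comm, hS]
  have b2 : P ^ m * e = e := by
    rw [← a1, ← mul_assoc, b1]
  have b3 : P ^ m * e = P ^ m := by
    obtain ⟨k, rfl⟩ : ∃ k, m = k + 1 := ⟨m - 1, by omega⟩
    rw [pow_succ, mul_assoc, a3]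
  have b4 : P ^ m = e := by rw [← b3, b2]
  have c1 : P * (Q * P) = P := by rw [← mul_assoc, a1, a2]
  have c2 : e * (Q * P) = e := by
    have : P ^ m * (Q * P) = P ^ m := by
      obtain ⟨k, rfl⟩ : ∃ k, m = k + 1 := ⟨m - 1, by omega⟩
      rw [pow_succ, mul_assoc, c1]
    rw [b4] at this
    exact this
  have c3 : Q * P = e := by
    have h : e * (Q * P) = Q * P := by rw [← mul_assoc, a4]
    exact h.symm.trans c2
  have c4 : g * e = e := by
    rw [← c3, ← mul_assoc, a5]
  rw [← h2, c4]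

theorem loc (hm : 0 < m) (hS : ∀ x : S, x ^ (1 + m) = x) (a b : S) (u : S)
    (hu : u ∈ Submonoid.closure ({a, b} : Set S)) :
    (a * b) ^ m * (a * b) ^ m = (a * b) ^ m ∧
    ((a * b) ^ m * u * (a * b) ^ m) ^ m = (a * b) ^ m := by
  have idem : ∀ s : S, s ^ m * s ^ m = s ^ m := by
    intro s
    have h : m + m = (1 + m) + (m - 1) := by omega
    rw [← pow_add, h, pow_add, hS, ← pow_succ']
    congr 1
    omega
  set e : S := (a * b) ^ m with he
  have ha : J e a := by
    refine ⟨1, b * (a * b) ^ (m - 1), ?_⟩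
    rw [one_mul, ← mul_assoc, ← pow_succ', he]
    congr 1
    omega
  have hb : J e b := by
    refine ⟨a, (a * b) ^ (m - 1), ?_⟩
    rw [← pow_succ', he]
    congr 1
    omega
  have hJu : J e u := by
    induction hu using Submonoid.closure_induction with
    | mem x hx =>
      rcases hx with rfl | rfl
      · exact ha
      · exact hb
    | one => exact ⟨e, 1, by simp⟩
    | mul x y _ _ hx hy => exact J_mul hm hS hx hy
  have hJe : J e e := ⟨1, 1, by simp⟩
  have hJs : J e (e * u * e) := J_mul hm hS (J_mul hm hS hJe hJu) hJe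
  refine ⟨idem _, ?_⟩
  have hee : e * e = e := idem _
  set s : S := e * u * e with hs
  have es : e * s = s := by rw [hs, ← mul_assoc, ← mul_assoc, hee]
  have se : s * e = s := by rw [hs, mul_assoc, hee]
  obtain ⟨k, rfl⟩ : ∃ k, m = k + 1 := ⟨m - 1, by omega⟩
  refine idem_eq hm hS hee (idem s) ?_ ?_ ?_
  · rw [pow_succ', ← mul_assoc, es]
  · rw [pow_succ, mul_assoc, se]
  · obtain ⟨p, q, hpq⟩ := hJs
    refine ⟨p, s * q, ?_⟩
    calc e = p * s * q := hpq
      _ = p * (s ^ (1 + (k + 1))) * q := by rw [hS]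
      _ = p * s ^ (k + 1) * (s * q) := by
        rw [add_comm 1 (k + 1), pow_succ s (k + 1)]
        simp only [mul_assoc]

end Pool.Agent.X281.BZ
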